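import Pool.Agent.Q175.SG.Main

/-! A solution at the lower threshold which is strongly negative. -/

set_option autoImplicit false

open MeasureTheory Laplacian InnerProductSpace Filter Topology Set
open scoped ContDiff

namespace Pool.Agent.Q175.LU

open WS SG

/-- `u = -(1 - |x|²) / 2` -/
noncomputable def uf (x : E2) : ℝ := (‖x‖ ^ 2 - 1) / 2
noncomputable def cf (x : E2) : ℝ := (12 + 8 * min (‖x‖ ^ 2) 1) / (2 - min (‖x‖ ^ 2) 1)
noncomputable def hf (x : E2) : ℝ := -2 - ‖x‖ ^ 2 + cf x * (1 - ‖x‖ ^ 2) / 2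
noncomputable def Ff (x : E2) : ℝ := Real.exp (‖x‖ ^ 2 - 1) * ((1 - ‖x‖ ^ 2) * (1 - ‖x‖ ^ 2 / 2))
noncomputable def wf (x : E2) : ℝ := Real.exp (‖x‖ ^ 2 - 1) * (‖x‖ ^ 2 - 5 / 2)

lemma uf_smooth : ContDiff ℝ ∞ uf := (sq_smooth.sub contDiff_const).div_const 2
lemma Ff_smooth : ContDiff ℝ ∞ Ff :=
  (Real.contDiff_exp.comp (sq_smooth.sub contDiff_const)).mul
    ((contDiff_const.sub sq_smooth).mul (contDiff_const.sub (sq_smooth.div_const 2)))
lemma wf_smooth : ContDiff ℝ ∞ wf :=
  (Real.contDiff_exp.comp (sq_smooth.sub contDiff_const)).mul (sq_smooth.sub contDiff_const)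

lemma cf_cont : Continuous cf := by
  have h1 : Continuous fun x : E2 => min (‖x‖ ^ 2) (1:ℝ) := (continuous_norm.pow 2).min continuous_const
  refine (continuous_const.add (continuous_const.mul h1)).div (continuous_const.sub h1) fun x => ?_
  have := min_le_right (‖x‖ ^ 2) (1:ℝ)
  linarith

lemma cf_pos (x : E2) : 0 < cf x := by
  have h1 := min_le_right (‖x‖ ^ 2) (1:ℝ)
  have h2 : 0 ≤ min (‖x‖ ^ 2) (1:ℝ) := le_min (by positivity) (by norm_num)
  exact div_pos (by linarith) (by linarith)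

lemma hf_cont : Continuous hf := by
  unfold hf
  exact ((continuous_const.sub (continuous_norm.pow 2)).add
    ((cf_cont.mul (continuous_const.sub (continuous_norm.pow 2))).div_const 2))

lemma cf_eq {x : E2} (hx : x ∈ Dsk) : cf x = (12 + 8 * ‖x‖ ^ 2) / (2 - ‖x‖ ^ 2) := by
  have := mem_dsk hx
  unfold cf
  rw [min_eq_left this.le]

lemma grad_uf (x : E2) : gradient uf x = x := by
  have h : HasDerivAt (fun s : ℝ => (s - 1) / 2) ((fun _ : ℝ => (1/2 : ℝ)) (‖x‖ ^ 2)) (‖x‖ ^ 2) := by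
    have := ((hasDerivAt_id (‖x‖ ^ 2)).sub_const 1).div_const 2
    simpa using this
  have := grad_radial (f := fun s : ℝ => (s - 1) / 2) (f' := fun _ => (1/2 : ℝ)) h
  change gradient (fun y : E2 => (‖y‖ ^ 2 - 1) / 2) x = x
  rw [this]
  norm_num

lemma lap_uf (x : E2) : Δ uf x = 2 := by
  have := H314.CS.LL.laplacian_comp_normSq (E := E2) (x := x) (U := fun s : ℝ => (s - 1) / 2)
    (U' := fun _ => 1/2) (U'' := fun _ => 0)
    (Eventually.of_forall fun s => by simpa using ((hasDerivAt_id s).sub_const 1).div_const 2)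
    (hasDerivAt_const _ _)
  rw [finrank_euclideanSpace_fin] at this
  have e : uf = fun y : E2 => (fun s : ℝ => (s - 1) / 2) (‖y‖ ^ 2) := rfl
  rw [e, this]
  norm_num

lemma dW (s : ℝ) : HasDerivAt (fun s => Real.exp (s - 1) * (s - 5/2)) (Real.exp (s - 1) * (s - 3/2)) s := by
  have h1 : HasDerivAt (fun s : ℝ => Real.exp (s - 1)) (Real.exp (s - 1)) s := by
    simpa using ((hasDerivAt_id s).sub_const 1).exp
  refine (h1.mul ((hasDerivAt_id s).sub_const (5/2))).congr_deriv ?_
  simp only [id]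
  ring

lemma dW2 (s : ℝ) : HasDerivAt (fun s => Real.exp (s - 1) * (s - 3/2)) (Real.exp (s - 1) * (s - 1/2)) s := by
  have h1 : HasDerivAt (fun s : ℝ => Real.exp (s - 1)) (Real.exp (s - 1)) s := by
    simpa using ((hasDerivAt_id s).sub_const 1).exp
  refine (h1.mul ((hasDerivAt_id s).sub_const (3/2))).congr_deriv ?_
  simp only [id]
  ring

lemma dF (s : ℝ) : HasDerivAt (fun s => Real.exp (s - 1) * ((1 - s) * (1 - s / 2)))
    (Real.exp (s - 1) * ((1 - s) * (1 - s / 2) + (s - 3/2))) s := by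
  have h1 : HasDerivAt (fun s : ℝ => Real.exp (s - 1)) (Real.exp (s - 1)) s := by
    simpa using ((hasDerivAt_id s).sub_const 1).exp
  have h2 : HasDerivAt (fun s : ℝ => (1 - s) * (1 - s / 2)) (s - 3/2) s := by
    have h3 : HasDerivAt (fun s : ℝ => 1 - s) (-1) s := by simpa using (hasDerivAt_id s).const_sub 1
    have h4 : HasDerivAt (fun s : ℝ => 1 - s / 2) (-(1/2)) s := by
      simpa using ((hasDerivAt_id s).div_const 2).const_sub 1
    refine (h3.mul h4).congr_deriv ?_
    ring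
  refine (h1.mul h2).congr_deriv ?_
  ring

lemma grad_wf (x : E2) : gradient wf x = (Real.exp (‖x‖ ^ 2 - 1) * (2 * ‖x‖ ^ 2 - 3)) • x := by
  have := grad_radial (f := fun s : ℝ => Real.exp (s - 1) * (s - 5/2))
    (f' := fun s => Real.exp (s - 1) * (s - 3/2)) (x := x) (dW _)
  change gradient (fun y : E2 => Real.exp (‖y‖ ^ 2 - 1) * (‖y‖ ^ 2 - 5/2)) x = _
  rw [this]
  congr 1
  ring

lemma lap_wf (x : E2) : Δ wf x = Real.exp (‖x‖ ^ 2 - 1) * (4 * (‖x‖ ^ 2) ^ 2 + 2 * ‖x‖ ^ 2 - 6) := by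
  have := H314.CS.LL.laplacian_comp_normSq (E := E2) (x := x) (U := fun s : ℝ => Real.exp (s - 1) * (s - 5/2))
    (U' := fun s => Real.exp (s - 1) * (s - 3/2)) (U'' := fun s => Real.exp (s - 1) * (s - 1/2))
    (Eventually.of_forall dW) (dW2 _)
  rw [finrank_euclideanSpace_fin] at this
  have e : wf = fun y : E2 => (fun s : ℝ => Real.exp (s - 1) * (s - 5/2)) (‖y‖ ^ 2) := rfl
  rw [e, this]
  push_cast
  ring

lemma grad_Ff (x : E2) : gradient Ff x = gradient wf x + (2 * Ff x) • x := by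
  have := grad_radial (f := fun s : ℝ => Real.exp (s - 1) * ((1 - s) * (1 - s / 2)))
    (f' := fun s => Real.exp (s - 1) * ((1 - s) * (1 - s / 2) + (s - 3/2))) (x := x) (dF _)
  rw [grad_wf, ← add_smul]
  change gradient (fun y : E2 => Real.exp (‖y‖ ^ 2 - 1) * ((1 - ‖y‖ ^ 2) * (1 - ‖y‖ ^ 2 / 2))) x = _
  rw [this]
  congr 1
  unfold Ff
  ring

lemma cF_eq {x : E2} (hx : x ∈ Dsk) : cf x * Ff x = -Δ wf x := by
  have hs := mem_dsk hx
  rw [cf_eq hx, lap_wf]
  unfold Ff
  have : (2:ℝ) - ‖x‖ ^ 2 ≠ 0 := by linarith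
  field_simp
  ring

lemma Ff_pos {x : E2} (hx : x ∈ Dsk) : 0 < Ff x := by
  have hs := mem_dsk hx
  unfold Ff
  have h1 : 0 < 1 - ‖x‖ ^ 2 := by linarith
  have h2 : 0 < 1 - ‖x‖ ^ 2 / 2 := by linarith
  positivity

lemma frontier_dsk {x : E2} (hx : x ∈ frontier Dsk) : ‖x‖ = 1 := by
  have hfr : frontier (Metric.ball (0 : E2) 1) = Metric.sphere 0 1 := frontier_ball _ one_ne_zero
  change x ∈ frontier (Metric.ball (0 : E2) 1) at hx
  rwa [hfr, mem_sphere_zero_iff_norm] at hx

lemma F_H10 : IsH10 Dsk (Dsk.indicator Ff) (Dsk.indicator (gradient Ff)) := by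
  apply isH10_of_pos Metric.isOpen_ball Metric.isBounded_ball Ff_smooth (fun x hx => Ff_pos hx)
  intro x hx
  unfold Ff
  rw [frontier_dsk hx]
  norm_num

noncomputable def mu (x : E2) : ℝ := (1 - ‖x‖ ^ 2) / 2

lemma mu_smooth : ContDiff ℝ ∞ mu := (contDiff_const.sub sq_smooth).div_const 2

lemma mu_H10 : IsH10 Dsk (Dsk.indicator mu) (Dsk.indicator (gradient mu)) := by
  apply isH10_of_pos Metric.isOpen_ball Metric.isBounded_ball mu_smooth
  · intro x hx
    have := mem_dsk hx
    unfold mu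
    linarith
  · intro x hx
    unfold mu
    rw [frontier_dsk hx]
    norm_num

/-- the pointwise equation for `u` -/
lemma eq_u (x : E2) : -Δ uf x = 1 * (cf x * uf x) + ‖gradient uf x‖ ^ 2 + hf x := by
  rw [lap_uf, grad_uf]
  unfold hf uf
  ring

lemma int_cont {f v : E2 → ℝ} {Ω : Set E2} (hbd : Bornology.IsBounded Ω) (hΩ : MeasurableSet Ω) (hf : Continuous f)
    (hv : IntegrableOn v Ω) : IntegrableOn (fun x => f x * v x) Ω := by
  obtain ⟨B, hB⟩ := hbd.isCompact_closure.exists_bound_of_continuousOn hf.continuousOn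
  refine Integrable.bdd_mul (c := B) hv hf.aestronglyMeasurable ?_
  filter_upwards [ae_restrict_mem hΩ] with x hx
  exact hB x (subset_closure hx)

lemma ms : MeasurableSet Dsk := Metric.isOpen_ball.measurableSet

/-- The key identity. -/
lemma key {lam : ℝ} {u : E2 → ℝ} {G : E2 → E2} (h : IsSolution Dsk lam cf (fun _ => 1) hf u G) :
    IntegrableOn (fun x => ‖G x - x‖ ^ 2 * Ff x) Dsk ∧
    ∫ x in Dsk, ‖G x - x‖ ^ 2 * Ff x = (1 - lam) * ∫ x in Dsk, cf x * u x * Ff x := by
  have hbd : Bornology.IsBounded Dsk := Metric.isBounded_ball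
  have hop : IsOpen Dsk := Metric.isOpen_ball
  have gF := TR.grad_cont (Ff_smooth.of_le (m := 1) (WithTop.coe_le_coe.mpr le_top))
  have gw := TR.grad_cont (wf_smooth.of_le (m := 1) (WithTop.coe_le_coe.mpr le_top))
  obtain ⟨hui, hGi⟩ := H10_integrable hbd h.h10
  have hG2 : IntegrableOn (fun x => ‖G x‖ ^ 2) Dsk := ((H10_memL2 h.h10).2.restrict Dsk).integrable_norm_pow (by norm_num)
  have hGx : ∀ {X : E2 → E2}, Continuous X → IntegrableOn (fun x => inner ℝ (G x) (X x)) Dsk := by
    intro X hX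
    obtain ⟨B, hB⟩ := hbd.isCompact_closure.exists_bound_of_continuousOn hX.continuousOn
    refine Integrable.mono' (g := fun x => ‖G x‖ * B) (hGi.norm.mul_const B) (hGi.aestronglyMeasurable.inner hX.aestronglyMeasurable) ?_
    filter_upwards [ae_restrict_mem ms] with x hx
    refine (norm_inner_le_norm _ _).trans ?_
    exact mul_le_mul_of_nonneg_left (hB x (subset_closure hx)) (norm_nonneg _)
  have hcI : ∀ {f : E2 → ℝ}, Continuous f → IntegrableOn f Dsk := fun hf =>
    (hf.continuousOn.integrableOn_compact hbd.isCompact_closure).mono_set subset_closure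
  -- weak equation of `u`
  have hFb : ∃ M : ℝ, ∀ᵐ x ∂(volume.restrict Dsk), |Dsk.indicator Ff x| ≤ M := by
    obtain ⟨M, hM⟩ := bdd_of_cont Ff_smooth.continuous
    refine ⟨M, ?_⟩
    filter_upwards [ae_restrict_mem ms] with x hx
    rw [indicator_of_mem hx]
    exact hM x hx
  have E1 := h.weak _ _ F_H10 hFb
  have E2' := weak_of_pointwise hop hbd uf_smooth cf_cont hf_cont (lam := 1) (fun x _ => eq_u x) F_H10
  have E3 := green_H10 hop hbd wf_smooth h.h10
  have E4 := green_H10 hop hbd wf_smooth mu_H10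
  have gmu : ∀ x, gradient mu x = -x := by
    intro x
    have e : mu = fun x => -uf x := by ext x; unfold mu uf; ring
    have h1 : HasGradientAt uf x x := by
      have := (uf_smooth.differentiable (by simp) x).hasGradientAt
      rwa [grad_uf] at this
    rw [e]
    have h2 : HasGradientAt (fun x => -uf x) (-x) x := by
      rw [hasGradientAt_iff_hasFDerivAt] at h1 ⊢
      refine h1.neg.congr_fderiv ?_
      simp
    exact h2.gradient
  -- rewrite on the disc
  have c1 : ∫ x in Dsk, inner ℝ (G x) (Dsk.indicator (gradient Ff) x) = ∫ x in Dsk, inner ℝ (G x) (gradient Ff x) :=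
    setIntegral_congr_fun ms fun x hx => by rw [indicator_of_mem hx]
  have c2 : ∫ x in Dsk, cf x * u x * Dsk.indicator Ff x = ∫ x in Dsk, cf x * u x * Ff x :=
    setIntegral_congr_fun ms fun x hx => by rw [indicator_of_mem hx]
  have c3 : ∫ x in Dsk, 1 * ‖G x‖ ^ 2 * Dsk.indicator Ff x = ∫ x in Dsk, ‖G x‖ ^ 2 * Ff x :=
    setIntegral_congr_fun ms fun x hx => by rw [indicator_of_mem hx, one_mul]
  have c4 : ∫ x in Dsk, hf x * Dsk.indicator Ff x = ∫ x in Dsk, hf x * Ff x :=
    setIntegral_congr_fun ms fun x hx => by rw [indicator_of_mem hx]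
  rw [c1, c2, c3, c4] at E1
  have d1 : ∫ x in Dsk, inner ℝ (gradient uf x) (Dsk.indicator (gradient Ff) x) = ∫ x in Dsk, inner ℝ x (gradient Ff x) :=
    setIntegral_congr_fun ms fun x hx => by rw [indicator_of_mem hx, grad_uf]
  have d2 : ∫ x in Dsk, cf x * uf x * Dsk.indicator Ff x = ∫ x in Dsk, cf x * uf x * Ff x :=
    setIntegral_congr_fun ms fun x hx => by rw [indicator_of_mem hx]
  have d3 : ∫ x in Dsk, 1 * ‖gradient uf x‖ ^ 2 * Dsk.indicator Ff x = ∫ x in Dsk, ‖x‖ ^ 2 * Ff x :=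
    setIntegral_congr_fun ms fun x hx => by rw [indicator_of_mem hx, one_mul, grad_uf]
  rw [d1, d2, d3, c4] at E2'
  have e3 : ∫ x in Dsk, inner ℝ (gradient wf x) (G x) = ∫ x in Dsk, cf x * u x * Ff x := by
    rw [E3, ← integral_neg]
    refine setIntegral_congr_fun ms fun x hx => ?_
    have := cF_eq hx
    change -(u x * Δ wf x) = cf x * u x * Ff x
    linear_combination (-u x) * this
  have e4 : ∫ x in Dsk, inner ℝ (gradient wf x) x = ∫ x in Dsk, cf x * uf x * Ff x := by
    have f1 : ∫ x in Dsk, inner ℝ (gradient wf x) (Dsk.indicator (gradient mu) x) = -∫ x in Dsk, inner ℝ (gradient wf x) x := by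
      rw [← integral_neg]
      refine setIntegral_congr_fun ms fun x hx => ?_
      rw [indicator_of_mem hx, gmu, inner_neg_right]
    have f2 : ∫ x in Dsk, Dsk.indicator mu x * Δ wf x = ∫ x in Dsk, cf x * uf x * Ff x := by
      refine setIntegral_congr_fun ms fun x hx => ?_
      rw [indicator_of_mem hx]
      have := cF_eq hx
      have e : mu x = - uf x := by unfold mu uf; ring
      rw [e]
      linear_combination (-uf x) * this
    rw [f1, f2] at E4
    linarith
  -- expansion of the square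
  have hx2 : Continuous fun x : E2 => ‖x‖ ^ 2 * Ff x := (continuous_norm.pow 2).mul Ff_smooth.continuous
  have i1 : IntegrableOn (fun x => ‖G x‖ ^ 2 * Ff x) Dsk := by
    have := int_cont hbd ms Ff_smooth.continuous hG2
    refine this.congr (Eventually.of_forall fun x => ?_)
    simp only; ring
  have i2 : IntegrableOn (fun x => inner ℝ (G x) (gradient Ff x)) Dsk := hGx gF
  have i3 : IntegrableOn (fun x => inner ℝ (G x) (gradient wf x)) Dsk := hGx gw
  have i4 : IntegrableOn (fun x => ‖x‖ ^ 2 * Ff x) Dsk := hcI hx2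
  have hexp : ∀ x, ‖G x - x‖ ^ 2 * Ff x = ‖G x‖ ^ 2 * Ff x - inner ℝ (G x) (gradient Ff x) +
      inner ℝ (G x) (gradient wf x) + ‖x‖ ^ 2 * Ff x := by
    intro x
    rw [norm_sub_sq_real, grad_Ff, inner_add_right, inner_smul_right]
    ring
  have e5 : IntegrableOn (fun x => ‖G x - x‖ ^ 2 * Ff x) Dsk := by
    refine (((i1.sub i2).add i3).add i4).congr (Eventually.of_forall fun x => ?_)
    simp only [Pi.add_apply, Pi.sub_apply]
    rw [hexp]
  refine ⟨e5, ?_⟩
  have e6 : ∫ x in Dsk, ‖G x - x‖ ^ 2 * Ff x = (∫ x in Dsk, ‖G x‖ ^ 2 * Ff x) - (∫ x in Dsk, inner ℝ (G x) (gradient Ff x)) +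
      (∫ x in Dsk, inner ℝ (G x) (gradient wf x)) + ∫ x in Dsk, ‖x‖ ^ 2 * Ff x := by
    have i12 : IntegrableOn (fun x => ‖G x‖ ^ 2 * Ff x - inner ℝ (G x) (gradient Ff x)) Dsk := i1.sub i2
    have i123 : IntegrableOn (fun x => ‖G x‖ ^ 2 * Ff x - inner ℝ (G x) (gradient Ff x) +
      inner ℝ (G x) (gradient wf x)) Dsk := i12.add i3
    rw [← integral_sub i1 i2, ← integral_add i12 i3, ← integral_add i123 i4]
    exact integral_congr_ae (Eventually.of_forall hexp)
  have e7 : ∫ x in Dsk, inner ℝ (G x) (gradient wf x) = ∫ x in Dsk, cf x * u x * Ff x := by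
    rw [← e3]
    exact integral_congr_ae (Eventually.of_forall fun x => real_inner_comm _ _)
  -- the integral of `<x, ∇F>`
  have i5 : IntegrableOn (fun x => inner ℝ x (gradient wf x)) Dsk := hcI (continuous_id.inner gw)
  have e8 : ∫ x in Dsk, inner ℝ x (gradient Ff x) = (∫ x in Dsk, cf x * uf x * Ff x) + 2 * ∫ x in Dsk, ‖x‖ ^ 2 * Ff x := by
    rw [← e4, ← integral_const_mul, ← integral_add]
    · refine integral_congr_ae (Eventually.of_forall fun x => ?_)
      simp only
      rw [grad_Ff, inner_add_right, inner_smul_right, real_inner_self_eq_norm_sq, real_inner_comm]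
      ring
    · refine i5.congr (Eventually.of_forall fun x => real_inner_comm _ _)
    · exact i4.const_mul 2
  rw [e6, e7]
  rw [e8] at E2'
  linarith

/-- There is no solution `≤ 0` below `λ = 1`. -/
theorem no_sol {lam : ℝ} (hl : lam < 1) {u : E2 → ℝ} {G : E2 → E2}
    (h : IsSolution Dsk lam cf (fun _ => 1) hf u G) (hu : ∀ᵐ x ∂(volume.restrict Dsk), u x ≤ 0) : False := by
  have hbd : Bornology.IsBounded Dsk := Metric.isBounded_ball
  have hop : IsOpen Dsk := Metric.isOpen_ball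
  obtain ⟨h1, h2⟩ := key h
  obtain ⟨hui, hGi⟩ := H10_integrable hbd h.h10
  have i1 : IntegrableOn (fun x => cf x * u x * Ff x) Dsk := by
    have := int_cont hbd ms (cf_cont.mul Ff_smooth.continuous) hui
    refine this.congr (Eventually.of_forall fun x => ?_)
    change cf x * Ff x * u x = _
    ring
  have n1 : 0 ≤ ∫ x in Dsk, ‖G x - x‖ ^ 2 * Ff x := by
    apply setIntegral_nonneg ms
    intro x hx
    exact mul_nonneg (by positivity) (Ff_pos hx).le
  have n2 : ∫ x in Dsk, cf x * u x * Ff x ≤ 0 := by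
    apply integral_nonpos_of_ae
    filter_upwards [hu, ae_restrict_mem ms] with x hx hx2
    have := cf_pos x
    have := Ff_pos hx2
    have h3 : cf x * u x ≤ 0 := mul_nonpos_of_nonneg_of_nonpos (cf_pos x).le hx
    exact mul_nonpos_of_nonpos_of_nonneg h3 (Ff_pos hx2).le
  have n3 : ∫ x in Dsk, cf x * u x * Ff x = 0 := by nlinarith
  have n4 : ∫ x in Dsk, ‖G x - x‖ ^ 2 * Ff x = 0 := by rw [h2, n3, mul_zero]
  have hu0 : ∀ᵐ x ∂(volume.restrict Dsk), u x = 0 := by
    have n5 : ∫ x in Dsk, -(cf x * u x * Ff x) = 0 := by rw [integral_neg, n3, neg_zero]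
    have i2 : IntegrableOn (fun x => -(cf x * u x * Ff x)) Dsk := i1.neg
    rw [integral_eq_zero_iff_of_nonneg_ae _ i2] at n5
    · filter_upwards [n5, ae_restrict_mem ms] with x hx hx2
      have hx' : -(cf x * u x * Ff x) = 0 := hx
      have h3 := (cf_pos x).ne'
      have h4 := (Ff_pos hx2).ne'
      have h5 : cf x * u x * Ff x = 0 := by linarith
      rcases mul_eq_zero.mp h5 with h6 | h6
      · rcases mul_eq_zero.mp h6 with h7 | h7
        · exact absurd h7 h3
        · exact h7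
      · exact absurd h6 h4
    · filter_upwards [hu, ae_restrict_mem ms] with x hx hx2
      have h3 : cf x * u x ≤ 0 := mul_nonpos_of_nonneg_of_nonpos (cf_pos x).le hx
      have := mul_nonpos_of_nonpos_of_nonneg h3 (Ff_pos hx2).le
      simp only [Pi.zero_apply]
      linarith
  have hG : ∀ᵐ x ∂(volume.restrict Dsk), G x = x := by
    rw [integral_eq_zero_iff_of_nonneg_ae _ h1] at n4
    · filter_upwards [n4, ae_restrict_mem ms] with x hx hx2
      have hx' : ‖G x - x‖ ^ 2 * Ff x = 0 := hx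
      rcases mul_eq_zero.mp hx' with h6 | h6
      · have : ‖G x - x‖ = 0 := pow_eq_zero_iff (two_ne_zero) |>.mp h6
        exact sub_eq_zero.mp (norm_eq_zero.mp this)
      · exact absurd h6 (Ff_pos hx2).ne'
    · filter_upwards [ae_restrict_mem ms] with x hx
      exact mul_nonneg (by positivity) (Ff_pos hx).le
  -- contradiction
  have E := green_H10 hop hbd uf_smooth h.h10
  have e1 : ∫ x in Dsk, u x * Δ uf x = 0 := by
    rw [← integral_zero E2 ℝ (μ := volume.restrict Dsk)]
    apply integral_congr_ae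
    filter_upwards [hu0] with x hx
    rw [hx, zero_mul]
  have e2 : ∫ x in Dsk, inner ℝ (gradient uf x) (G x) = ∫ x in Dsk, ‖x‖ ^ 2 := by
    apply integral_congr_ae
    filter_upwards [hG] with x hx
    rw [hx, grad_uf, real_inner_self_eq_norm_sq]
  rw [e1, e2, neg_zero] at E
  have hcI : IntegrableOn (fun x : E2 => ‖x‖ ^ 2) Dsk :=
    ((continuous_norm.pow 2).continuousOn.integrableOn_compact hbd.isCompact_closure).mono_set subset_closure
  rw [setIntegral_eq_zero_iff_of_nonneg_ae (Eventually.of_forall fun x => by positivity) hcI] at E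
  have hne : ∀ᵐ x ∂(volume.restrict Dsk), x ≠ (0 : E2) :=
    ae_restrict_of_ae (compl_mem_ae_iff.mpr (measure_singleton _))
  have hpos : 0 < volume Dsk := hop.measure_pos volume ⟨0, by simp [Dsk]⟩
  have hF : ∀ᵐ x ∂(volume.restrict Dsk), False := by
    filter_upwards [E, hne] with x hx hx2
    have hx' : ‖x‖ ^ 2 = 0 := hx
    exact hx2 (norm_eq_zero.mp (pow_eq_zero_iff (two_ne_zero) |>.mp hx'))
  rw [ae_iff] at hF
  simp only [not_false_eq_true, Set.ofPred_true, Measure.restrict_apply_univ] at hF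
  exact hpos.ne' hF

/-- the solution, extended by `0` -/
noncomputable def u1 : E2 → ℝ := Dsk.indicator uf
noncomputable def G1 : E2 → E2 := Dsk.indicator fun x => x

lemma u1_nonpos (x : E2) : u1 x ≤ 0 := by
  unfold u1
  by_cases hx : x ∈ Dsk
  · rw [indicator_of_mem hx]
    have := mem_dsk hx
    unfold uf
    linarith
  · rw [indicator_of_notMem hx]

lemma IsH10_neg {Ω : Set E2} {u : E2 → ℝ} {G : E2 → E2} (h : IsH10 Ω u G) :
    IsH10 Ω (fun x => -u x) (fun x => -G x) := by
  obtain ⟨mu, mG, φ, hφ, l1, l2⟩ := h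
  refine ⟨mu.neg, mG.neg, fun k x => -φ k x, fun k => ⟨(hφ k).1.neg, ?_, ?_⟩, ?_, ?_⟩
  · exact (hφ k).2.1.neg
  · have : tsupport (fun x => -φ k x) = tsupport (φ k) := by
      unfold tsupport
      congr 1
      ext x
      simp
    rw [this]
    exact (hφ k).2.2
  · refine l1.congr fun k => ?_
    rw [← eLpNorm_neg]
    congr 1
    ext x
    simp only [Pi.neg_apply]
    ring
  · refine l2.congr fun k => ?_
    rw [← eLpNorm_neg]
    congr 1
    ext1 x
    have e : gradient (fun x => -φ k x) x = -gradient (φ k) x := by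
      have h1 := ((hφ k).1.differentiable (by simp) x).hasGradientAt
      have h2 : HasGradientAt (fun x => -φ k x) (-gradient (φ k) x) x := by
        rw [hasGradientAt_iff_hasFDerivAt] at h1 ⊢
        refine h1.neg.congr_fderiv ?_
        simp
      exact h2.gradient
    simp only [Pi.neg_apply]
    rw [e]
    abel

lemma u1_H10 : IsH10 Dsk u1 G1 := by
  have h := IsH10_neg mu_H10
  have e1 : (fun x => -Dsk.indicator mu x) = u1 := by
    ext x
    unfold u1
    by_cases hx : x ∈ Dsk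
    · rw [indicator_of_mem hx, indicator_of_mem hx]; unfold mu uf; ring
    · rw [indicator_of_notMem hx, indicator_of_notMem hx, neg_zero]
  have gmu : ∀ x, gradient mu x = -x := by
    intro x
    have e : mu = fun x => -uf x := by ext x; unfold mu uf; ring
    have h1 : HasGradientAt uf x x := by
      have := (uf_smooth.differentiable (by simp) x).hasGradientAt
      rwa [grad_uf] at this
    rw [e]
    have h2 : HasGradientAt (fun x => -uf x) (-x) x := by
      rw [hasGradientAt_iff_hasFDerivAt] at h1 ⊢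
      refine h1.neg.congr_fderiv ?_
      simp
    exact h2.gradient
  have e2 : (fun x => -Dsk.indicator (gradient mu) x) = G1 := by
    ext1 x
    unfold G1
    by_cases hx : x ∈ Dsk
    · rw [indicator_of_mem hx, indicator_of_mem hx, gmu, neg_neg]
    · rw [indicator_of_notMem hx, indicator_of_notMem hx, neg_zero]
  rwa [e1, e2] at h

lemma sol1 : IsSolution Dsk 1 cf (fun _ => 1) hf u1 G1 := by
  have hop : IsOpen Dsk := Metric.isOpen_ball
  refine ⟨u1_H10, ?_, fun v V hv _ => ?_⟩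
  · obtain ⟨M, hM⟩ := bdd_of_cont uf_smooth.continuous
    refine ⟨M, ?_⟩
    filter_upwards [ae_restrict_mem ms] with x hx
    unfold u1
    rw [indicator_of_mem hx]
    exact hM x hx
  · have h := weak_of_pointwise hop Metric.isBounded_ball uf_smooth cf_cont
      hf_cont (lam := 1) (fun x _ => eq_u x) hv
    have e1 : ∫ x in Dsk, inner ℝ (G1 x) (V x) = ∫ x in Dsk, inner ℝ (gradient uf x) (V x) :=
      setIntegral_congr_fun ms fun x hx => by simp only [G1]; rw [indicator_of_mem hx, grad_uf]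
    have e2 : ∫ x in Dsk, cf x * u1 x * v x = ∫ x in Dsk, cf x * uf x * v x :=
      setIntegral_congr_fun ms fun x hx => by simp only [u1]; rw [indicator_of_mem hx]
    have e3 : ∫ x in Dsk, 1 * ‖G1 x‖ ^ 2 * v x = ∫ x in Dsk, 1 * ‖gradient uf x‖ ^ 2 * v x :=
      setIntegral_congr_fun ms fun x hx => by simp only [G1]; rw [indicator_of_mem hx, grad_uf]
    rw [e1, e2, e3]
    exact h

/-- the lower threshold -/
lemma threshold : sInf {lam : ℝ | 0 ≤ lam ∧ ∃ (u : E2 → ℝ) (G : E2 → E2),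
    IsSolution Dsk lam cf (fun _ => 1) hf u G ∧ ∀ᵐ x ∂(volume.restrict Dsk), u x ≤ 0} = 1 := by
  have hmem : (1:ℝ) ∈ {lam : ℝ | 0 ≤ lam ∧ ∃ (u : E2 → ℝ) (G : E2 → E2),
      IsSolution Dsk lam cf (fun _ => 1) hf u G ∧ ∀ᵐ x ∂(volume.restrict Dsk), u x ≤ 0} :=
    ⟨by norm_num, u1, G1, sol1, Eventually.of_forall u1_nonpos⟩
  refine IsLeast.csInf_eq ⟨hmem, ?_⟩
  rintro lam ⟨-, u, G, h, hu⟩
  by_contra hcon
  exact no_sol (not_le.mp hcon) h hu

/-- strong negativity -/
lemma strong (φ : E2 → ℝ) (hφ : ∃ K, LipschitzOnWith K φ (Metric.closedBall 0 1))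
    (h0 : ∀ x ∈ Metric.sphere (0 : E2) 1, φ x = 0) :
    ∃ ε : ℝ, 0 < ε ∧ ∀ x ∈ Metric.closedBall (0 : E2) 1, ε * φ x ≤ -u1 x := by
  obtain ⟨K, hK⟩ := hφ
  refine ⟨1 / (2 * (K + 1)), by positivity, fun x hx => ?_⟩
  have hx1 : ‖x‖ ≤ 1 := by simpa using hx
  have hu : -u1 x = (1 - ‖x‖ ^ 2) / 2 := by
    unfold u1
    by_cases hx2 : x ∈ Dsk
    · rw [indicator_of_mem hx2]; unfold uf; ring
    · rw [indicator_of_notMem hx2]
      have : ¬ ‖x‖ < 1 := fun h => hx2 (by simpa [Dsk] using h)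
      have h2 : ‖x‖ = 1 := le_antisymm hx1 (not_lt.mp this)
      rw [h2]; norm_num
  have hφx : φ x ≤ K * (1 - ‖x‖) := by
    by_cases hx0 : x = 0
    · subst hx0
      have hy : EuclideanSpace.single (0 : Fin 2) (1:ℝ) ∈ Metric.sphere (0 : E2) 1 := by simp
      have hy2 := Metric.sphere_subset_closedBall hy
      have := hK.dist_le_mul 0 hx _ hy2
      rw [Real.dist_eq, h0 _ hy, sub_zero, dist_zero_left] at this
      have h3 : ‖EuclideanSpace.single (0 : Fin 2) (1:ℝ)‖ = 1 := by simp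
      rw [h3] at this
      rw [norm_zero]
      have := le_abs_self (φ 0)
      linarith
    · have hn : ‖x‖ ≠ 0 := norm_ne_zero_iff.mpr hx0
      have hnp : 0 < ‖x‖ := norm_pos_iff.mpr hx0
      set y : E2 := (1 / ‖x‖) • x with hy
      have hyn : ‖y‖ = 1 := by
        rw [hy, norm_smul, Real.norm_eq_abs, abs_of_pos (by positivity)]
        field_simp
      have hys : y ∈ Metric.sphere (0 : E2) 1 := by simpa using hyn
      have := hK.dist_le_mul x hx y (Metric.sphere_subset_closedBall hys)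
      rw [Real.dist_eq, h0 y hys, sub_zero] at this
      have hd : dist x y = 1 - ‖x‖ := by
        have e : x - y = (1 - 1 / ‖x‖) • x := by rw [hy, sub_smul, one_smul]
        rw [dist_eq_norm, e, norm_smul, Real.norm_eq_abs, abs_of_nonpos]
        · field_simp
          ring
        · rw [sub_nonpos, le_div_iff₀ hnp]
          linarith
      rw [hd] at this
      exact (le_abs_self _).trans this
  rw [hu]
  have hK0 : (0:ℝ) ≤ K := K.2
  have h5 : 0 ≤ 1 - ‖x‖ := by linarith
  calc 1 / (2 * ((K:ℝ) + 1)) * φ x ≤ 1 / (2 * ((K:ℝ) + 1)) * (K * (1 - ‖x‖)) := by gcongr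
    _ ≤ 1 / (2 * ((K:ℝ) + 1)) * ((K + 1) * (1 - ‖x‖)) := by gcongr; linarith
    _ = (1 - ‖x‖) / 2 := by field_simp
    _ ≤ (1 - ‖x‖ ^ 2) / 2 := by nlinarith [norm_nonneg x]

end Pool.Agent.Q175.LU
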