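import Pool.Agent.Q175.LU.Main

/-! Uniqueness of the solution at the threshold. -/

set_option autoImplicit false

open MeasureTheory Laplacian InnerProductSpace Filter Topology Set
open scoped ContDiff ENNReal

namespace Pool.Agent.Q175.LU

open WS SG

/-- Poincaré's inequality in the disc. -/
lemma poincare {φ : E2 → ℝ} (h : IsTest Dsk φ) :
    eLpNorm φ 2 volume ≤ eLpNorm (gradient φ) 2 (volume.restrict Dsk) := by
  have h1 : ContDiff ℝ 1 φ := h.1.of_le (WithTop.coe_le_coe.mpr le_top)
  have gc := TR.grad_cont h1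
  have hφ2 : ContDiff ℝ ∞ (fun x => φ x * φ x) := h.1.mul h.1
  have hcs : HasCompactSupport (fun x => φ x * φ x) := h.2.1.mul_left
  have g1 := TR.green1 (hφ2.of_le (m := 1) (WithTop.coe_le_coe.mpr le_top)) hcs
    (uf_smooth.of_le (m := 2) (WithTop.coe_le_coe.mpr le_top))
  have gφ : ∀ x, gradient (fun x => φ x * φ x) x = (2 * φ x) • gradient φ x := by
    intro x
    have hd := (h.1.differentiable (by simp) x).hasGradientAt
    have h2 : HasGradientAt (fun x => φ x * φ x) ((2 * φ x) • gradient φ x) x := by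
      rw [hasGradientAt_iff_hasFDerivAt] at hd ⊢
      refine (hd.mul hd).congr_fderiv ?_
      ext y
      simp
      ring
    exact h2.gradient
  have e1 : ∫ x, φ x ^ 2 = -∫ x, φ x * inner ℝ (gradient φ x) x := by
    have e2 : ∫ x, inner ℝ (gradient (fun x => φ x * φ x) x) (gradient uf x) = 2 * ∫ x, φ x * inner ℝ (gradient φ x) x := by
      rw [← integral_const_mul]
      congr 1; ext x
      rw [gφ, grad_uf, inner_smul_left]
      simp; ring
    have e3 : ∫ x, (φ x * φ x) * Δ uf x = 2 * ∫ x, φ x ^ 2 := by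
      rw [← integral_const_mul]
      congr 1; ext x
      rw [lap_uf]; ring
    rw [e2, e3] at g1
    linarith
  have m1 : MemLp φ 2 volume := h.1.continuous.memLp_of_hasCompactSupport h.2.1
  have m2 : MemLp (gradient φ) 2 volume := gc.memLp_of_hasCompactSupport (TR.grad_supp h.2.1)
  set A := ∫ x, φ x ^ 2
  set B := ∫ x in Dsk, ‖gradient φ x‖ ^ 2
  have hA0 : 0 ≤ A := integral_nonneg fun x => sq_nonneg _
  have hB0 : 0 ≤ B := integral_nonneg fun x => sq_nonneg _
  have iA : Integrable fun x => φ x ^ 2 := m1.integrable_sq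
  have iB : Integrable fun x => ‖gradient φ x‖ ^ 2 := m2.integrable_norm_pow (by norm_num)
  have hBf : B = ∫ x, ‖gradient φ x‖ ^ 2 := by
    apply setIntegral_eq_integral_of_forall_compl_eq_zero
    intro x hx
    rw [test_grad_zero h hx]
    simp
  have hAB : A ≤ B := by
    have h4 : A ≤ ∫ x, (1/2 * φ x ^ 2 + 1/2 * ‖gradient φ x‖ ^ 2) := by
      rw [e1, ← integral_neg]
      have hc1 : Continuous fun x => φ x * inner ℝ (gradient φ x) x := h.1.continuous.mul (gc.inner continuous_id)
      have hs1 : HasCompactSupport fun x => φ x * inner ℝ (gradient φ x) x := h.2.1.mul_right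
      have hi1 : Integrable fun x => -(φ x * inner ℝ (gradient φ x) x) := (hc1.integrable_of_hasCompactSupport hs1).neg
      refine integral_mono hi1 ((iA.const_mul _).add (iB.const_mul _)) fun x => ?_
      change -(φ x * inner ℝ (gradient φ x) x) ≤ 1/2 * φ x ^ 2 + 1/2 * ‖gradient φ x‖ ^ 2
      by_cases hx : x ∈ Dsk
      · have hx1 : ‖x‖ < 1 := by simpa [Dsk] using hx
        have h5 : |inner ℝ (gradient φ x) x| ≤ ‖gradient φ x‖ := by
          refine (abs_real_inner_le_norm _ _).trans ?_
          exact mul_le_of_le_one_right (norm_nonneg _) hx1.le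
        have h6 : -(φ x * inner ℝ (gradient φ x) x) ≤ |φ x| * ‖gradient φ x‖ := by
          refine (neg_le_abs _).trans ?_
          rw [abs_mul]
          exact mul_le_mul_of_nonneg_left h5 (abs_nonneg _)
        nlinarith [sq_nonneg (|φ x| - ‖gradient φ x‖), sq_abs (φ x)]
      · rw [test_zero h hx]
        simp only [zero_mul, neg_zero]
        positivity
    rw [integral_add (iA.const_mul _) (iB.const_mul _), integral_const_mul, integral_const_mul, ← hBf] at h4
    change A ≤ 1/2 * A + 1/2 * B at h4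
    linarith
  rw [m1.eLpNorm_eq_integral_rpow_norm (by norm_num) (by norm_num),
    (m2.restrict Dsk).eLpNorm_eq_integral_rpow_norm (by norm_num) (by norm_num)]
  apply ENNReal.ofReal_le_ofReal
  have e4 : ∫ x, ‖φ x‖ ^ (2:ℝ≥0∞).toReal = A := by
    congr 1; ext x
    simp
  have e5 : ∫ x in Dsk, ‖gradient φ x‖ ^ (2:ℝ≥0∞).toReal = B := by
    congr 1; ext x
    simp
  rw [e4, e5]
  exact Real.rpow_le_rpow hA0 hAB (by positivity)

/-- A function of `H^1_0` with vanishing gradient is zero. -/
lemma H10_zero {u : E2 → ℝ} {G : E2 → E2} (h : IsH10 Dsk u G) (hG : ∀ᵐ x ∂(volume.restrict Dsk), G x = 0) :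
    u =ᵐ[volume] 0 := by
  obtain ⟨mu, mG, φ, hφ, l1, l2⟩ := h
  have gc : ∀ k, Continuous (gradient (φ k)) := fun k =>
    TR.grad_cont ((hφ k).1.of_le (WithTop.coe_le_coe.mpr le_top))
  have h1 : ∀ k, eLpNorm (φ k) 2 volume ≤ eLpNorm (fun x => gradient (φ k) x - G x) 2 volume := by
    intro k
    refine (poincare (hφ k)).trans ?_
    have : eLpNorm (gradient (φ k)) 2 (volume.restrict Dsk) =
        eLpNorm (fun x => gradient (φ k) x - G x) 2 (volume.restrict Dsk) := by
      apply eLpNorm_congr_ae
      filter_upwards [hG] with x hx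
      rw [hx, sub_zero]
    rw [this]
    exact eLpNorm_mono_measure _ Measure.restrict_le_self
  have h2 : Tendsto (fun k => eLpNorm (φ k) 2 volume) atTop (𝓝 0) :=
    tendsto_of_tendsto_of_tendsto_of_le_of_le tendsto_const_nhds l2 (fun _ => zero_le) h1
  have h3 : eLpNorm u 2 volume = 0 := by
    have h4 : ∀ k, eLpNorm u 2 volume ≤ eLpNorm (φ k) 2 volume + eLpNorm (fun x => φ k x - u x) 2 volume := by
      intro k
      have := eLpNorm_sub_le (μ := (volume : Measure E2)) (p := 2) (f := φ k) (g := fun x => φ k x - u x)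
        (hφ k).1.continuous.aestronglyMeasurable ((hφ k).1.continuous.aestronglyMeasurable.sub mu) (by norm_num)
      refine le_trans (le_of_eq ?_) this
      congr 1
      ext x
      simp
    have h5 := h2.add l1
    rw [add_zero] at h5
    exact le_antisymm (ge_of_tendsto h5 (Eventually.of_forall h4)) zero_le
  rwa [eLpNorm_eq_zero_iff mu (by norm_num)] at h3

/-- Uniqueness at the threshold: every solution of `(P₁)` is equal to `u1`. -/
theorem uniq {u : E2 → ℝ} {G : E2 → E2} (h : IsSolution Dsk 1 cf (fun _ => 1) hf u G) :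
    u =ᵐ[volume] u1 := by
  obtain ⟨h1, h2⟩ := key h
  rw [sub_self, zero_mul] at h2
  have hG : ∀ᵐ x ∂(volume.restrict Dsk), G x = x := by
    rw [integral_eq_zero_iff_of_nonneg_ae _ h1] at h2
    · filter_upwards [h2, ae_restrict_mem ms] with x hx hx2
      have hx' : ‖G x - x‖ ^ 2 * Ff x = 0 := hx
      rcases mul_eq_zero.mp hx' with h6 | h6
      · have : ‖G x - x‖ = 0 := pow_eq_zero_iff (two_ne_zero) |>.mp h6
        exact sub_eq_zero.mp (norm_eq_zero.mp this)
      · exact absurd h6 (Ff_pos hx2).ne'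
    · filter_upwards [ae_restrict_mem ms] with x hx
      exact mul_nonneg (by positivity) (Ff_pos hx).le
  have h3 := h.h10.add (IsH10_neg u1_H10)
  have h4 : ∀ᵐ x ∂(volume.restrict Dsk), (fun x => G x + -G1 x) x = 0 := by
    filter_upwards [hG, ae_restrict_mem ms] with x hx hx2
    simp only [G1]
    rw [indicator_of_mem hx2, hx, add_neg_cancel]
  filter_upwards [H10_zero h3 h4] with x hx
  have hx' : u x + -u1 x = 0 := hx
  linarith

end Pool.Agent.Q175.LU
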